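import Mathlib
import Pool.Agent.H343.QF.StQ

set_option autoImplicit false
set_option linter.unusedSectionVars false

/-! # QF-Q10: the words `Sd` which are killed

Sums of lengths of blocks, combinatorics, lines of the word, the main argument. -/

namespace Pool.Agent.H670.QF

open Pool.Agent.TH68 Pool.Agent.Helper97.Hyp Pool.Agent.H343.AN Pool.Agent.H343.QF

section sums

/-- the sum of distinct numbers -/
theorem sum_distinct (T : Finset ℕ) : T.card * (T.card + 1) ≤ 2 * ∑ t ∈ T, (t + 1) := by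
  induction T using Finset.induction_on_max with
  | empty => simp
  | insert a s hs ih =>
    have ha : a ∉ s := fun h => lt_irrefl a (hs a h)
    have hc : s.card ≤ a := by
      have h1 : s ⊆ Finset.range a := fun x hx => Finset.mem_range.2 (hs x hx)
      simpa using Finset.card_le_card h1
    rw [Finset.card_insert_of_notMem ha, Finset.sum_insert ha]
    nlinarith

theorem lamt_ge {E l0 : ℕ} (hl : E ≤ l0) (t : ℕ) : (t + 1) * E ≤ lamt E l0 t := by
  unfold lamt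
  split_ifs with h
  · subst h
    simpa using hl
  · exact le_rfl

/-- residues -/
def rs (n : ℕ) (j : ℤ) : ℕ := (j % ((n : ℤ) + 1)).toNat

theorem rs_cast (n : ℕ) (j : ℤ) : (rs n j : ℤ) = j % ((n : ℤ) + 1) := by
  unfold rs
  exact Int.toNat_of_nonneg (Int.emod_nonneg _ (by omega))

theorem rs_lt (n : ℕ) (j : ℤ) : rs n j < n + 1 := by
  have h1 := rs_cast n j
  have h2 := Int.emod_lt_of_pos j (show (0 : ℤ) < (n : ℤ) + 1 by omega)
  omega

theorem rs_inj {n : ℕ} {i j j' : ℤ} {L : ℕ} (hL : L ≤ n + 1) (h1 : i ≤ j) (h2 : j < i + L)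
    (h3 : i ≤ j') (h4 : j' < i + L) (e : rs n j = rs n j') : j = j' := by
  have e1 : j % ((n : ℤ) + 1) = j' % ((n : ℤ) + 1) := by
    rw [← rs_cast, ← rs_cast, e]
  have e2 := Int.emod_add_mul_ediv j ((n : ℤ) + 1)
  have e3 := Int.emod_add_mul_ediv j' ((n : ℤ) + 1)
  obtain ⟨x, hx⟩ : ∃ x, x = j / ((n : ℤ) + 1) := ⟨_, rfl⟩
  obtain ⟨y, hy⟩ : ∃ y, y = j' / ((n : ℤ) + 1) := ⟨_, rfl⟩
  rw [← hx] at e2
  rw [← hy] at e3
  have h5 : j - j' = ((n : ℤ) + 1) * (x - y) := by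
    rw [mul_sub]
    omega
  have hn : (0 : ℤ) < (n : ℤ) + 1 := by omega
  have h6 : x - y = 0 := by
    by_contra h7
    rcases lt_or_gt_of_ne h7 with h8 | h8
    · have h9 : ((n : ℤ) + 1) * (x - y) ≤ ((n : ℤ) + 1) * (-1) :=
        mul_le_mul_of_nonneg_left (by omega) hn.le
      omega
    · have h9 : ((n : ℤ) + 1) * 1 ≤ ((n : ℤ) + 1) * (x - y) :=
        mul_le_mul_of_nonneg_left (by omega) hn.le
      omega
  rw [h6, mul_zero] at h5
  omega

theorem rs_succ {n : ℕ} {j : ℤ} (h : rs n j ≠ n) : rs n (j + 1) = rs n j + 1 := by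
  have h1 := rs_cast n j
  have h2 := rs_cast n (j + 1)
  have h3 := rs_lt n j
  have h4 : (j + 1) % ((n : ℤ) + 1) = j % ((n : ℤ) + 1) + 1 := by
    rw [Int.add_emod, ← h1]
    have h5 : (1 : ℤ) % ((n : ℤ) + 1) = 1 := by
      apply Int.emod_eq_of_lt (by omega)
      omega
    rw [h5]
    apply Int.emod_eq_of_lt (by omega)
    omega
  omega

theorem lamr_eq (n E l0 : ℕ) (j : ℤ) : lamr n E l0 j = lamt E l0 (rs n j) := rfl

theorem sum_image (n E l0 : ℕ) (i : ℤ) (L : ℕ) (hL : L ≤ n + 1) :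
    ((Finset.Ico i (i + L)).image (rs n)).card = L ∧
    ∑ j ∈ Finset.Ico i (i + L), lamr n E l0 j =
      ∑ t ∈ (Finset.Ico i (i + L)).image (rs n), lamt E l0 t := by
  have hinj : Set.InjOn (rs n) (Finset.Ico i (i + L) : Finset ℤ) := by
    intro j hj j' hj' e
    rw [Finset.mem_coe, Finset.mem_Ico] at hj hj'
    exact rs_inj hL hj.1 hj.2 hj'.1 hj'.2 e
  constructor
  · rw [Finset.card_image_of_injOn hinj, Int.card_Ico]
    omega
  · rw [Finset.sum_image hinj]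
    rfl

/-- the sum of the lengths of few consecutive blocks -/
theorem sum_lam_ge {n E l0 : ℕ} (hl : E ≤ l0) (i : ℤ) (L : ℕ) (hL : L ≤ n + 1) :
    E * (L * (L + 1)) ≤ 2 * ∑ j ∈ Finset.Ico i (i + L), lamr n E l0 j := by
  obtain ⟨h1, h2⟩ := sum_image n E l0 i L hL
  rw [h2]
  have h3 := sum_distinct ((Finset.Ico i (i + L)).image (rs n))
  rw [h1] at h3
  calc E * (L * (L + 1)) ≤ E * (2 * ∑ t ∈ (Finset.Ico i (i + L)).image (rs n), (t + 1)) :=
        Nat.mul_le_mul_left _ h3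
    _ = 2 * ∑ t ∈ (Finset.Ico i (i + L)).image (rs n), (t + 1) * E := by
        rw [← Finset.sum_mul]
        ring
    _ ≤ 2 * ∑ t ∈ (Finset.Ico i (i + L)).image (rs n), lamt E l0 t :=
        Nat.mul_le_mul_left _ (Finset.sum_le_sum fun t _ => lamt_ge hl t)

/-- the sum over a period -/
theorem sum_lam_full (n E l0 : ℕ) (i : ℤ) :
    ∑ j ∈ Finset.Ico i (i + ((n + 1 : ℕ) : ℤ)), lamr n E l0 j = P0 n E l0 := by
  obtain ⟨h1, h2⟩ := sum_image n E l0 i (n + 1) le_rfl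
  rw [h2]
  unfold P0
  congr 1
  apply Finset.eq_of_subset_of_card_le
  · intro t ht
    obtain ⟨j, -, rfl⟩ := Finset.mem_image.1 ht
    exact Finset.mem_range.2 (rs_lt n j)
  · rw [h1, Finset.card_range]

/-- upper bound of the sum of the lengths of `L` consecutive blocks -/
theorem sum_lam_le {n E l0 : ℕ} (hl : E ≤ l0) (i : ℤ) (L m : ℕ) (hL : L + m = n + 1) :
    2 * ∑ j ∈ Finset.Ico i (i + L), lamr n E l0 j + E * (m * (m + 1)) ≤ 2 * P0 n E l0 := by
  have h1 := sum_lam_ge hl (i + L) m (show m ≤ n + 1 by omega)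
  have h2 := sum_lam_full n E l0 i
  have h3 : Finset.Ico i (i + ((n + 1 : ℕ) : ℤ)) =
      Finset.Ico i (i + L) ∪ Finset.Ico (i + (L : ℤ)) (i + L + m) := by
    rw [Finset.Ico_union_Ico_eq_Ico (by omega) (by omega)]
    congr 1
    omega
  rw [h3, Finset.sum_union (Finset.Ico_disjoint_Ico_consecutive _ _ _)] at h2
  omega

end sums

/-- a large subset of an interval contains four consecutive numbers -/
theorem four {B : ℕ} (M : Finset ℕ) (hM : M ⊆ Finset.range B) (h : B < M.card + B / 4) :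
    ∃ m, m ∈ M ∧ m + 1 ∈ M ∧ m + 2 ∈ M ∧ m + 3 ∈ M := by
  by_contra hcon
  push Not at hcon
  have h1 : ∀ r, ∃ e, e < 4 ∧ 4 * r + e ∉ M := by
    intro r
    by_contra h2
    push Not at h2
    have a0 := h2 0 (by norm_num)
    have a1 := h2 1 (by norm_num)
    have a2 := h2 2 (by norm_num)
    have a3 := h2 3 (by norm_num)
    exact hcon (4 * r) a0 a1 a2 a3
  choose e he1 he2 using h1
  have h2 : (Finset.range (B / 4)).card ≤ (Finset.range B \ M).card := by
    refine Finset.card_le_card_of_injOn (fun r => 4 * r + e r) ?_ ?_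
    · intro r hr
      rw [Finset.mem_coe, Finset.mem_range] at hr
      rw [Finset.mem_coe, Finset.mem_sdiff, Finset.mem_range]
      have := he1 r
      refine ⟨?_, he2 r⟩
      show 4 * r + e r < B
      omega
    · intro r _ r' _ h3
      have h4 : 4 * r + e r = 4 * r' + e r' := h3
      have := he1 r
      have := he1 r'
      omega
  have h3 := Finset.card_sdiff_add_card_eq_card hM
  rw [Finset.card_range] at h2 h3
  omega

section lines

variable {Γ : Type} [Group Γ]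

/-- the relation of lying on the same line -/
theorem zp_symm {a u v : Γ} (h : u⁻¹ * v ∈ Subgroup.zpowers a) : v⁻¹ * u ∈ Subgroup.zpowers a := by
  have h1 := (Subgroup.zpowers a).inv_mem h
  rwa [mul_inv_rev, inv_inv] at h1

theorem zp_trans {a u v w : Γ} (h : u⁻¹ * v ∈ Subgroup.zpowers a)
    (h' : v⁻¹ * w ∈ Subgroup.zpowers a) : u⁻¹ * w ∈ Subgroup.zpowers a := by
  have h1 := (Subgroup.zpowers a).mul_mem h h'
  rwa [mul_assoc, mul_inv_cancel_left] at h1

variable {W : WNorm Γ} {a b : Γ} {δ D : ℝ}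

theorem a_inj (hg : Good W a b δ D) {c d : ℤ} (h : a ^ c = a ^ d) : c = d := by
  have h1 : a ^ (c - d) = 1 := by rw [zpow_sub, h, mul_inv_cancel]
  have h2 := hg.pow (c - d)
  rw [h1, W.one'] at h2
  have h3 : |c - d| = 0 := h2.symm
  rw [abs_eq_zero] at h3
  omega

theorem b_nm (hg : Good W a b δ D) {κ : ℕ} (h1 : 1 ≤ κ) (h2 : κ ≤ 3) :
    b ^ κ ∉ Subgroup.zpowers a := by
  rintro ⟨c, hc⟩
  have h3 := hg.dc κ 0 c 0 (by rw [abs_of_nonneg (by omega)]; omega) (by simp) (by omega)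
  apply h3
  have hc' : a ^ c = b ^ κ := hc
  rw [zpow_natCast, ← hc']
  simp

theorem b_len (hg : Good W a b δ D) (κ : ℕ) : (W.ℓ (b ^ κ) : ℝ) ≤ κ := by
  have h1 : W.ℓ (b ^ κ) ≤ κ := by
    induction κ with
    | zero => rw [pow_zero, W.one']
    | succ κ ih =>
      rw [pow_succ]
      have := W.mul_le (b ^ κ) b
      rw [hg.lb] at this
      omega
  exact_mod_cast h1

/-- the partial products of the word `Sd` -/
def wd (a b : Γ) (i j k : ℤ) (m : ℕ) : Γ :=
  a ^ i * b ^ 3 * a ^ j * b ^ 3 * blk (b ^ 2) (a ^ k) m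

theorem wd_succ (a b : Γ) (i j k : ℤ) (m : ℕ) :
    wd a b i j k (m + 1) = wd a b i j k m * a ^ (((m + 1 : ℕ) : ℤ) * k) * b ^ 2 := by
  unfold wd
  show a ^ i * b ^ 3 * a ^ j * b ^ 3 * (blk (b ^ 2) (a ^ k) m * ((a ^ k) ^ (m + 1) * b ^ 2)) = _
  have h1 : (a ^ k) ^ (m + 1) = a ^ (((m + 1 : ℕ) : ℤ) * k) := by
    rw [← zpow_natCast, ← zpow_mul, mul_comm]
  rw [h1]
  simp only [mul_assoc]

theorem wd_Sd (a b : Γ) (i j k : ℤ) (B : ℕ) :
    wd a b i j k B = Sd B b (a ^ i) (a ^ j) (a ^ k) := rfl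

theorem Ln_ne (v : Γ) : (Ln W a v).Nonempty := ⟨pt W (v * a ^ (0 : ℤ)), 0, rfl⟩

/-- one step of the word has a small projection on other lines -/
theorem pd_step (hmal : S_malpair) (hg : Good W a b δ D) {u v : Γ}
    (h : v⁻¹ * u ∉ Subgroup.zpowers a) (c : ℤ) {κ : ℕ} (hκ : κ ≤ 3) :
    pd (Ln W a v) (pt W u) (pt W (u * a ^ c * b ^ κ)) ≤ D + 3 := by
  have h1 := hmal hg u v h 0 c
  rw [zpow_zero, mul_one] at h1
  have h2 := pd_le_dist (Ln_ne (W := W) (a := a) v) (pt W (u * a ^ c)) (pt W (u * a ^ c * b ^ κ))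
  have h3 : dist (pt W (u * a ^ c)) (pt W (u * a ^ c * b ^ κ)) ≤ 3 := by
    rw [dist_def, out_pt, out_pt]
    have e : (u * a ^ c)⁻¹ * (u * a ^ c * b ^ κ) = b ^ κ := by group
    rw [e]
    refine (b_len hg κ).trans ?_
    exact_mod_cast hκ
  have h4 := pd_tri (Ln_ne (W := W) (a := a) v) (pt W u) (pt W (u * a ^ c))
    (pt W (u * a ^ c * b ^ κ))
  linarith

/-- a line with a large projection of the word is one of the lines of the word -/
theorem big_line (hmal : S_malpair) (hg : Good W a b δ D) (i j k : ℤ) (B : ℕ) (v : Γ)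
    (h1 : v⁻¹ * 1 ∉ Subgroup.zpowers a) (h2 : v⁻¹ * (a ^ i * b ^ 3) ∉ Subgroup.zpowers a)
    (h3 : ∀ m < B, v⁻¹ * wd a b i j k m ∉ Subgroup.zpowers a) :
    pd (Ln W a v) (pt W 1) (pt W (wd a b i j k B)) ≤ (B + 2) * (D + 3) := by
  have hne := Ln_ne (W := W) (a := a) v
  have key : ∀ m ≤ B, pd (Ln W a v) (pt W 1) (pt W (wd a b i j k m)) ≤ (m + 2) * (D + 3) := by
    intro m
    induction m with
    | zero =>
      intro _
      have s1 := pd_step hmal hg h1 i (κ := 3) le_rfl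
      have s2 := pd_step hmal hg h2 j (κ := 3) le_rfl
      rw [one_mul] at s1
      have e : wd a b i j k 0 = a ^ i * b ^ 3 * a ^ j * b ^ 3 := by
        unfold wd
        show a ^ i * b ^ 3 * a ^ j * b ^ 3 * 1 = _
        rw [mul_one]
      rw [e]
      have s3 := pd_tri hne (pt W 1) (pt W (a ^ i * b ^ 3)) (pt W (a ^ i * b ^ 3 * a ^ j * b ^ 3))
      push_cast
      linarith
    | succ m ih =>
      intro hm
      have s1 := ih (by omega)
      have s2 := pd_step hmal hg (h3 m (by omega)) (((m + 1 : ℕ) : ℤ) * k) (κ := 2) (by norm_num)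
      rw [← wd_succ] at s2
      have s3 := pd_tri hne (pt W 1) (pt W (wd a b i j k m)) (pt W (wd a b i j k (m + 1)))
      push_cast
      linarith
  exact key B le_rfl

/-- translates of corner paths -/
theorem hyp5_tr {R : ℝ} {X : ℤ → Γ} {lam : ℤ → ℕ} {s : ℤ → Γ} {E Λ : ℕ}
    (h : Hyp5 W a b δ D R X lam s E Λ) (x : Γ) :
    Hyp5 W a b δ D R (fun j => x * X j) lam s E Λ where
  good := h.good
  cor :=
    { step := fun j => by
        show x * X (j + 1) = x * X j * a ^ lam j * s j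
        rw [h.cor.step]
        simp only [mul_assoc]
      lo := h.cor.lo
      hi := h.cor.hi
      short := h.cor.short
      nm := h.cor.nm }
  hR := h.hR
  hE := h.hE
  hΛ := h.hΛ

end lines

section window

variable {Γ : Type} [Group Γ] {W : WNorm Γ} {a b : Γ} {δ D R : ℝ} {n E l0 κ : ℕ} {g : Γ}
  {X : ℤ → Γ} {s : ℤ → Γ}

/-- the numerical facts -/
theorem nums (good : Good W a b δ D) (bd : BD W a D R n E l0 κ g) :
    3 ≤ D + R ∧ 10 ^ 20 * (D + R) ≤ E ∧ (10 : ℝ) ^ 13 ≤ n ∧ 1 ≤ D := by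
  have h1 := good.one
  have h2 := good.le
  have h3 := bd.hR
  have h4 : (10 : ℝ) ^ 13 ≤ n := by exact_mod_cast bd.hn
  have h5 : 3 ≤ D + R := by linarith
  refine ⟨h5, ?_, h4, by linarith⟩
  refine le_trans ?_ bd.hE
  have h6 : (10 : ℝ) ^ 20 * (D + R) = 10 ^ 7 * 10 ^ 13 * (D + R) := by norm_num
  rw [h6]
  gcongr

/-- distant corners -/
theorem far_corner (good : Good W a b δ D) (bd : BD W a D R n E l0 κ g) (c2 : S_cor2)
    (h5 : Hyp5 W a b δ D R X (lamr n E l0) s E (LL n E)) (i j : ℤ)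
    (hij : i + ((n / 1000 : ℕ) : ℤ) ≤ j) :
    30 * ((LL n E : ℕ) : ℝ) ≤ dist (pt W (X i)) (pt W (X j)) := by
  obtain ⟨u1, u2, u3, -⟩ := nums good bd
  obtain ⟨L, hL⟩ : ∃ L, L = n / 1000 := ⟨_, rfl⟩
  rw [← hL] at hij
  have hn := bd.hn
  have hL1 : n < 1000 * (L + 1) := by omega
  have hL2 : L ≤ n + 1 := by omega
  have hL3 : 10 ^ 10 ≤ L := by omega
  have h1 := (c2 h5 i j (by omega)).1
  refine le_trans ?_ h1
  have h2 : (∑ m ∈ Finset.Ico i j, (lamr n E l0 m : ℝ)) - (j - i) * (200 * (D + R)) =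
      ∑ m ∈ Finset.Ico i j, ((lamr n E l0 m : ℝ) - 200 * (D + R)) := by
    rw [Finset.sum_sub_distrib, Finset.sum_const, Int.card_Ico, nsmul_eq_mul]
    have h3 : ((j - i).toNat : ℝ) = (j : ℝ) - i := by
      have h4 : ((j - i).toNat : ℤ) = j - i := Int.toNat_of_nonneg (by omega)
      have h5 : (((j - i).toNat : ℤ) : ℝ) = ((j - i : ℤ) : ℝ) := by rw [h4]
      push_cast at h5
      exact h5
    rw [h3]
  rw [h2]
  have hE0 : (0 : ℝ) < E := by nlinarith
  have h3 : ∑ m ∈ Finset.Ico i (i + (L : ℤ)), ((lamr n E l0 m : ℝ) - 200 * (D + R)) ≤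
      ∑ m ∈ Finset.Ico i j, ((lamr n E l0 m : ℝ) - 200 * (D + R)) := by
    apply Finset.sum_le_sum_of_subset_of_nonneg
    · exact Finset.Ico_subset_Ico_right hij
    · intro m _ _
      have h4 : (E : ℝ) ≤ lamr n E l0 m := by exact_mod_cast h5.cor.lo m
      nlinarith
  refine le_trans ?_ h3
  rw [Finset.sum_sub_distrib, Finset.sum_const, Int.card_Ico, nsmul_eq_mul]
  have h4 : ((i + (L : ℤ) - i).toNat : ℝ) = L := by
    have : (i + (L : ℤ) - i).toNat = L := by omega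
    rw [this]
  rw [h4]
  have h6 := sum_lam_ge (n := n) (l0 := l0) bd.lo i L hL2
  have h7 : (E : ℝ) * (L * (L + 1)) ≤ 2 * ∑ m ∈ Finset.Ico i (i + (L : ℤ)), (lamr n E l0 m : ℝ) := by
    exact_mod_cast h6
  have h8 : ((LL n E : ℕ) : ℝ) = 3 * (n + 1) * E := by
    unfold LL
    push_cast
    ring
  rw [h8]
  have h9 : (L : ℝ) * (200 * (D + R)) ≤ L * (E / 4) := by
    apply mul_le_mul_of_nonneg_left _ (Nat.cast_nonneg L)
    nlinarith
  have hL1' : (n : ℝ) < 1000 * (L + 1) := by exact_mod_cast hL1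
  have hL3' : (10 : ℝ) ^ 10 ≤ L := by exact_mod_cast hL3
  have h10 : (n : ℝ) ≤ 2000 * L := by linarith
  have h11 : (n : ℝ) * 10 ^ 13 ≤ (2000 * L) * (2000 * L) := by
    have hn0 : (0 : ℝ) ≤ n := Nat.cast_nonneg n
    calc (n : ℝ) * 10 ^ 13 ≤ n * n := mul_le_mul_of_nonneg_left u3 hn0
      _ ≤ (2000 * L) * (2000 * L) := mul_le_mul h10 h10 hn0 (by positivity)
  have h12 : 180 * ((n : ℝ) + 1) ≤ L * L := by linarith
  have h13 : 180 * ((n : ℝ) + 1) * E ≤ L * L * E := mul_le_mul_of_nonneg_right h12 hE0.le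
  have h14 : 0 ≤ (L : ℝ) * E := by positivity
  nlinarith

/-- two corners whose distance is about a period have about `n` blocks between them -/
theorem many_blocks (good : Good W a b δ D) (bd : BD W a D R n E l0 κ g) (c2 : S_cor2)
    (h5 : Hyp5 W a b δ D R X (lamr n E l0) s E (LL n E)) (i k : ℤ) (hik : i ≤ k)
    (hd : (P0 n E l0 : ℝ) - 4 * LL n E - 51 * (10 ^ 5 * LL n E) ≤
      dist (pt W (X i)) (pt W (X k))) : n + 1 ≤ (k - i).toNat + n / 500 := by
  obtain ⟨u1, u2, u3, u4⟩ := nums good bd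
  by_contra hcon
  push Not at hcon
  obtain ⟨K, hK⟩ : ∃ K, K = (k - i).toNat := ⟨_, rfl⟩
  rw [← hK] at hcon
  have hk : k = i + (K : ℤ) := by omega
  obtain ⟨m, hm⟩ : ∃ m, K + m = n + 1 := ⟨n + 1 - K, by omega⟩
  have hm1 : n < 500 * m := by omega
  have h1 := (c2 h5 i k hik).2
  have h2 := sum_lam_le (n := n) (l0 := l0) bd.lo i K m hm
  have h3 : 2 * ∑ j ∈ Finset.Ico i (i + (K : ℤ)), (lamr n E l0 j : ℝ) + E * (m * (m + 1)) ≤
      2 * P0 n E l0 := by exact_mod_cast h2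
  rw [← hk] at h3
  have h4 : ((k : ℝ) - i) = K := by
    rw [hk]
    push_cast
    ring
  rw [h4] at h1
  have h8 : ((LL n E : ℕ) : ℝ) = 3 * (n + 1) * E := by
    unfold LL
    push_cast
    ring
  rw [h8] at hd
  have hE0 : (0 : ℝ) < E := by nlinarith
  have hRE : R ≤ E := by nlinarith
  have hK1 : (K : ℝ) ≤ n + 1 := by
    have : K ≤ n + 1 := by omega
    exact_mod_cast this
  have h9 : (K : ℝ) * R ≤ (n + 1) * E := by
    have hR0 : 0 ≤ R := by linarith [bd.hR]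
    exact mul_le_mul hK1 hRE hR0 (by positivity)
  have h10 : (E : ℝ) * (m * (m + 1)) ≤ E * (30600026 * (n + 1)) := by nlinarith
  have h11 : (m : ℝ) * (m + 1) ≤ 30600026 * (n + 1) := le_of_mul_le_mul_left h10 hE0
  have hm1' : (n : ℝ) < 500 * m := by exact_mod_cast hm1
  have h12 : (n : ℝ) * 10 ^ 13 ≤ (500 * m) * (500 * m) := by
    have hn0 : (0 : ℝ) ≤ n := Nat.cast_nonneg n
    calc (n : ℝ) * 10 ^ 13 ≤ n * n := mul_le_mul_of_nonneg_left u3 hn0
      _ ≤ (500 * m) * (500 * m) := mul_le_mul hm1'.le hm1'.le hn0 (by positivity)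
  have hm0 : (0 : ℝ) ≤ m := Nat.cast_nonneg m
  nlinarith

/-- a window of blocks on whose lines the pair has a large projection -/
theorem window (good : Good W a b δ D) (bd : BD W a D R n E l0 κ g) (c2 : S_cor2) (mc : S_mc)
    (h5 : Hyp5 W a b δ D R X (lamr n E l0) s E (LL n E)) (p q : Pt W) (i k : ℤ) (hik : i ≤ k)
    (hp : IsProj (3 * ((LL n E : ℕ) : ℝ)) (SX W X) p (pt W (X i)))
    (hq : IsProj (3 * ((LL n E : ℕ) : ℝ)) (SX W X) q (pt W (X k)))
    (hd : (P0 n E l0 : ℝ) - 4 * LL n E - 51 * (10 ^ 5 * LL n E) ≤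
      dist (pt W (X i)) (pt W (X k))) :
    ∃ (j₁ : ℤ) (L : ℕ), L ≤ n + 1 ∧ n + 1 ≤ L + n / 250 ∧
      ∀ j, j₁ ≤ j → j < j₁ + L → (E : ℝ) / 2 ≤ pd (Ln W a (X j)) p q := by
  obtain ⟨u1, u2, u3, u4⟩ := nums good bd
  have hmany := many_blocks good bd c2 h5 i k hik hd
  have hn := bd.hn
  refine ⟨i + ((n / 1000 : ℕ) : ℤ), min (n + 1) ((k - i).toNat - 2 * (n / 1000)), min_le_left _ _,
    ?_, fun j hj1 hj2 => ?_⟩
  · rcases min_cases (n + 1) ((k - i).toNat - 2 * (n / 1000)) with h | h <;> omega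
  · have hj3 : (min (n + 1) ((k - i).toNat - 2 * (n / 1000)) : ℕ) ≤
        (k - i).toNat - 2 * (n / 1000) := min_le_right _ _
    have hj4 : j + 1 + ((n / 1000 : ℕ) : ℤ) ≤ k := by omega
    have f1 := far_corner good bd c2 h5 i j hj1
    have f2 := far_corner good bd c2 h5 (j + 1) k hj4
    have f3 := mc h5 p q i j k hp hq (by omega) (by omega) f1 f2
    have f4 : (E : ℝ) ≤ lamr n E l0 j := by exact_mod_cast h5.cor.lo j
    refine le_trans ?_ f3
    nlinarith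

end window

/-- **Q10** -/
theorem q10 : ToolG → S_rcor → S_rdist → S_sp → S_q1 → S_q10 := by
  intro tg rcor rdist sp q1 Γ _ W a b δ D R n E l0 κ g h B hB i j k hS
  classical
  by_cases hne : Sd B b (a ^ i) (a ^ j) (a ^ k) = 1
  · exact Or.inl hne
  right
  obtain ⟨good, bd⟩ := h
  have h : HypR W a b δ D R n E l0 κ g := ⟨good, bd⟩
  obtain ⟨u1, u2, u3, u4⟩ := nums good bd
  obtain ⟨Y, hθ, -, hYS, Sp', hN, hρ, -⟩ := sp h
  rw [← hN] at hS
  obtain ⟨A, r, -, -, -, hpd⟩ := q1 Y Sp' hS hne (pt W 1)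
  obtain ⟨x, rfl⟩ := QuotientGroup.mk_surjective A
  rw [smul_base] at hpd
  obtain ⟨X, hX⟩ : ∃ X : ℤ → Γ, X = fun t => x * Xr a b n E l0 κ g t := ⟨_, rfl⟩
  have h5 : Hyp5 W a b δ D R X (lamr n E l0) (sr b n κ g) E (LL n E) := by
    rw [hX]
    exact hyp5_tr (rcor h).1 x
  have hSX : Y.S (x : Γ ⧸ Subgroup.zpowers (rho a b n E l0 κ g)) = SX W X := by
    rw [hYS x, hX]
    ext p
    constructor
    · rintro ⟨t, rfl⟩
      exact ⟨t, rfl⟩
    · rintro ⟨t, rfl⟩
      exact ⟨t, rfl⟩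
  rw [hSX, hρ, hθ] at hpd
  obtain ⟨π₁, hπ₁⟩ := tg.cproj h5 (pt W 1)
  obtain ⟨π₂, hπ₂⟩ := tg.cproj h5 (pt W (Sd B b (a ^ i) (a ^ j) (a ^ k)))
  obtain ⟨i', hi'⟩ := hπ₁.1
  obtain ⟨k', hk'⟩ := hπ₂.1
  have hi'' : pt W (X i') = π₁ := hi'
  have hk'' : pt W (X k') = π₂ := hk'
  rw [← hi''] at hπ₁
  rw [← hk''] at hπ₂
  have hd0 := pd_le_of_proj hπ₁ hπ₂
  have hd : (P0 n E l0 : ℝ) - 4 * LL n E - 51 * (10 ^ 5 * LL n E) ≤
      dist (pt W (X i')) (pt W (X k')) := by linarith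
  -- the window
  obtain ⟨j₁, L, hL1, hL2, hwin⟩ : ∃ (j₁ : ℤ) (L : ℕ), L ≤ n + 1 ∧ n + 1 ≤ L + n / 250 ∧
      ∀ t, j₁ ≤ t → t < j₁ + L → (E : ℝ) / 2 ≤
        pd (Ln W a (X t)) (pt W 1) (pt W (Sd B b (a ^ i) (a ^ j) (a ^ k))) := by
    rcases le_total i' k' with hik | hik
    · exact window good bd tg.cor2 tg.mc h5 _ _ i' k' hik hπ₁ hπ₂ hd
    · rw [dist_comm] at hd
      obtain ⟨j₁, L, a1, a2, a3⟩ := window good bd tg.cor2 tg.mc h5 _ _ k' i' hik hπ₂ hπ₁ hd
      refine ⟨j₁, L, a1, a2, fun t t1 t2 => ?_⟩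
      rw [pd_symm (Ln_ne _)]
      exact a3 t t1 t2
  -- each line of the window is a line of the word
  have hn := bd.hn
  have hlines : ∀ t, j₁ ≤ t → t < j₁ + L → (X t)⁻¹ * 1 ∉ Subgroup.zpowers a →
      (X t)⁻¹ * (a ^ i * b ^ 3) ∉ Subgroup.zpowers a →
      ∃ m < B, (X t)⁻¹ * wd a b i j k m ∈ Subgroup.zpowers a := by
    intro t t1 t2 t3 t4
    by_contra hcon
    push Not at hcon
    have b1 := big_line tg.malpair good i j k B (X t) t3 t4 hcon
    rw [wd_Sd] at b1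
    have b2 := hwin t t1 t2
    have b3 : (B : ℝ) + 2 ≤ n + 4 := by
      have : B + 2 ≤ n + 4 := by omega
      exact_mod_cast this
    have b4 : D + 3 ≤ 2 * (D + R) := by linarith [bd.hR]
    have b5 : ((B : ℝ) + 2) * (D + 3) ≤ (n + 4) * (2 * (D + R)) :=
      mul_le_mul b3 b4 (by linarith) (by positivity)
    have b6 : ((n : ℝ) + 4) * (2 * (D + R)) ≤ (2 * n) * (2 * (D + R)) := by
      apply mul_le_mul_of_nonneg_right _ (by linarith)
      linarith
    have b7 := bd.hE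
    have b8 : 0 < (n : ℝ) * (D + R) := by
      have : (0 : ℝ) < n := by linarith
      have : 0 < D + R := by linarith
      positivity
    nlinarith
  -- the good blocks
  obtain ⟨J, hJ⟩ : ∃ J : Finset ℤ, J = Finset.Ico j₁ (j₁ + L) := ⟨_, rfl⟩
  have hJc : J.card = L := by
    rw [hJ, Int.card_Ico]
    omega
  have hJm : ∀ t, t ∈ J ↔ j₁ ≤ t ∧ t < j₁ + L := fun t => by rw [hJ, Finset.mem_Ico]
  obtain ⟨bad, hbad⟩ : ∃ bad : Finset ℤ, bad = (J.filter fun t => rs n t = 0) ∪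
      (J.filter fun t => rs n t = n) ∪ (J.filter fun t => (X t)⁻¹ * 1 ∈ Subgroup.zpowers a) ∪
      (J.filter fun t => (X t)⁻¹ * (a ^ i * b ^ 3) ∈ Subgroup.zpowers a) := ⟨_, rfl⟩
  have hres : ∀ c : ℕ, (J.filter fun t => rs n t = c).card ≤ 1 := by
    intro c
    rw [Finset.card_le_one]
    intro t ht t' ht'
    rw [Finset.mem_filter, hJm] at ht ht'
    exact rs_inj hL1 ht.1.1 ht.1.2 ht'.1.1 ht'.1.2 (ht.2.trans ht'.2.symm)
  have hlin : ∀ c : Γ, (J.filter fun t => (X t)⁻¹ * c ∈ Subgroup.zpowers a).card ≤ 1 := by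
    intro c
    rw [Finset.card_le_one]
    intro t ht t' ht'
    rw [Finset.mem_filter] at ht ht'
    exact tg.dl h5 t t' (zp_trans ht.2 (zp_symm ht'.2))
  have hbadc : bad.card ≤ 4 := by
    rw [hbad]
    have c1 := hres 0
    have c2 := hres n
    have c3 := hlin 1
    have c4 := hlin (a ^ i * b ^ 3)
    refine (Finset.card_union_le _ _).trans ?_
    refine (Nat.add_le_add_right ((Finset.card_union_le _ _).trans (Nat.add_le_add_right
      (Finset.card_union_le _ _) _)) _).trans ?_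
    omega
  obtain ⟨J', hJ'⟩ : ∃ J' : Finset ℤ, J' = J \ bad := ⟨_, rfl⟩
  have hJ'c : L ≤ J'.card + 4 := by
    rw [hJ']
    have := Finset.le_card_sdiff bad J
    omega
  have hJ'm : ∀ t ∈ J', (j₁ ≤ t ∧ t < j₁ + L) ∧ rs n t ≠ 0 ∧ rs n t ≠ n ∧
      (X t)⁻¹ * 1 ∉ Subgroup.zpowers a ∧ (X t)⁻¹ * (a ^ i * b ^ 3) ∉ Subgroup.zpowers a := by
    intro t ht
    rw [hJ', hbad, Finset.mem_sdiff] at ht
    obtain ⟨ht1, ht2⟩ := ht
    simp only [Finset.mem_union, Finset.mem_filter, not_or, not_and] at ht2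
    obtain ⟨⟨⟨c1, c2⟩, c3⟩, c4⟩ := ht2
    exact ⟨(hJm t).1 ht1, c1 ht1, c2 ht1, c3 ht1, c4 ht1⟩
  have hex : ∀ t, ∃ m, t ∈ J' → m < B ∧ (X t)⁻¹ * wd a b i j k m ∈ Subgroup.zpowers a := by
    intro t
    by_cases ht : t ∈ J'
    · obtain ⟨c1, -, -, c3, c4⟩ := hJ'm t ht
      obtain ⟨m, hm, hm'⟩ := hlines t c1.1 c1.2 c3 c4
      exact ⟨m, fun _ => ⟨hm, hm'⟩⟩
    · exact ⟨0, fun h => absurd h ht⟩
  choose mf hmf using hex
  obtain ⟨m, hm0, hm1, hm2, hm3⟩ := four (B := B) (J'.image mf) (by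
      intro c hc
      obtain ⟨t, ht, rfl⟩ := Finset.mem_image.1 hc
      exact Finset.mem_range.2 (hmf t ht).1) (by
      rw [Finset.card_image_of_injOn]
      · omega
      · intro t ht t' ht' hee
        have e1 := (hmf t ht).2
        have e2 := (hmf t' ht').2
        have hee' : mf t = mf t' := hee
        rw [hee'] at e1
        exact tg.dl h5 t t' (zp_trans e1 (zp_symm e2)))
  obtain ⟨j0, hj0, e0⟩ := Finset.mem_image.1 hm0
  obtain ⟨j1, hj1, e1⟩ := Finset.mem_image.1 hm1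
  obtain ⟨j2, hj2, e2⟩ := Finset.mem_image.1 hm2
  obtain ⟨j3, hj3, e3⟩ := Finset.mem_image.1 hm3
  have l0' := (hmf j0 hj0).2
  have l1' := (hmf j1 hj1).2
  have l2' := (hmf j2 hj2).2
  have l3' := (hmf j3 hj3).2
  rw [e0] at l0'
  rw [e1] at l1'
  rw [e2] at l2'
  rw [e3] at l3'
  -- adjacency
  have hadj : ∀ (t t' : ℤ) (m : ℕ), (X t)⁻¹ * wd a b i j k m ∈ Subgroup.zpowers a →
      (X t')⁻¹ * wd a b i j k (m + 1) ∈ Subgroup.zpowers a → |t - t'| ≤ 1 := by
    intro t t' m h1 h2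
    refine tg.adj h5 t t' (wd a b i j k m * a ^ (((m + 1 : ℕ) : ℤ) * k)) (wd a b i j k (m + 1))
      ?_ h2 ?_
    · rw [← mul_assoc]
      exact (Subgroup.zpowers a).mul_mem h1 ⟨_, rfl⟩
    · rw [wd_succ, dist_def, out_pt, out_pt]
      have e : (wd a b i j k m * a ^ (((m + 1 : ℕ) : ℤ) * k))⁻¹ *
          (wd a b i j k m * a ^ (((m + 1 : ℕ) : ℤ) * k) * b ^ 2) = b ^ 2 := by group
      rw [e]
      have := b_len good 2
      push_cast at this
      linarith
  have d01 := hadj j0 j1 m l0' l1'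
  have d12 := hadj j1 j2 (m + 1) l1' l2'
  have d23 := hadj j2 j3 (m + 2) l2' l3'
  have n01 : j0 ≠ j1 := fun h => by rw [h] at e0; omega
  have n12 : j1 ≠ j2 := fun h => by rw [h] at e1; omega
  have n23 : j2 ≠ j3 := fun h => by rw [h] at e2; omega
  have n02 : j0 ≠ j2 := fun h => by rw [h] at e0; omega
  have n13 : j1 ≠ j3 := fun h => by rw [h] at e1; omega
  rw [abs_le] at d01 d12 d23
  -- connectors
  have hstep : ∀ t ∈ J', X (t + 1) = X t * a ^ ((lamr n E l0 t : ℕ) : ℤ) * b ^ κ := by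
    intro t ht
    have h1 := h5.cor.step t
    have h2 : sr b n κ g t = b ^ κ := by
      unfold sr
      rw [if_neg]
      intro h3
      apply (hJ'm t ht).2.2.1
      have h4 := rs_cast n t
      rw [h3] at h4
      exact_mod_cast h4
    rw [h2] at h1
    rw [h1, zpow_natCast]
  have hκ : 1 ≤ κ ∧ κ ≤ 3 := by
    rcases bd.hκ with h | h <;> omega
  have w1 := wd_succ a b i j k m
  have w2 := wd_succ a b i j k (m + 1)
  have w3 := wd_succ a b i j k (m + 2)
  have hcase : j1 = j0 + 1 ∨ j1 = j0 - 1 := by omega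
  rcases hcase with hc | hc
  · -- parallel
    have c2 : j2 = j1 + 1 := by omega
    have c3 : j3 = j2 + 1 := by omega
    have s0 := hstep j0 hj0
    have s1 := hstep j1 hj1
    have s2 := hstep j2 hj2
    rw [← hc] at s0
    rw [← c2] at s1
    rw [← c3] at s2
    have hk2 : 2 = κ := by
      refine tg.algk good (wd a b i j k m) (X j0) 2 κ (((m + 1 : ℕ) : ℤ) * k)
        ((lamr n E l0 j0 : ℕ) : ℤ) (by norm_num) (by norm_num) hκ.1 hκ.2 (zp_symm l0') ?_
      rw [← w1, ← s0]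
      exact zp_symm l1'
    subst hk2
    have hb2 := b_nm good (κ := 2) (by norm_num) (by norm_num)
    have g1 : wd a b i j k (m + 1) = X j1 := by
      rw [w1, s0]
      refine tg.algp good (wd a b i j k m) (X j0) (b ^ 2) _ _ hb2 (zp_symm l0') ?_
      rw [← w1, ← s0]
      exact zp_symm l1'
    have g2 : wd a b i j k (m + 1 + 1) = X j2 := by
      rw [w2, s1]
      refine tg.algp good (wd a b i j k (m + 1)) (X j1) (b ^ 2) _ _ hb2 (zp_symm l1') ?_
      rw [← w2, ← s1]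
      exact zp_symm l2'
    have g3 : wd a b i j k (m + 2 + 1) = X j3 := by
      rw [w3, s2]
      refine tg.algp good (wd a b i j k (m + 2)) (X j2) (b ^ 2) _ _ hb2 (zp_symm l2') ?_
      rw [← w3, ← s2]
      exact zp_symm l3'
    have p1 : ((m + 1 + 1 : ℕ) : ℤ) * k = ((lamr n E l0 j1 : ℕ) : ℤ) := by
      apply a_inj good
      rw [w2, s1, g1] at g2
      exact mul_left_cancel (mul_right_cancel g2)
    have p2 : ((m + 2 + 1 : ℕ) : ℤ) * k = ((lamr n E l0 j2 : ℕ) : ℤ) := by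
      apply a_inj good
      have g2' : wd a b i j k (m + 2) = X j2 := g2
      rw [w3, s2, g2'] at g3
      exact mul_left_cancel (mul_right_cancel g3)
    obtain ⟨-, r1, r2, -, -⟩ := hJ'm j1 hj1
    have r3 := rs_succ r2
    rw [← c2] at r3
    have q1' : lamr n E l0 j1 = (rs n j1 + 1) * E := by
      rw [lamr_eq]
      unfold lamt
      rw [if_neg r1]
    have q2' : lamr n E l0 j2 = (rs n j1 + 1 + 1) * E := by
      rw [lamr_eq, r3]
      unfold lamt
      rw [if_neg (by omega)]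
    rw [q1'] at p1
    rw [q2'] at p2
    refine ⟨rfl, ?_⟩
    push_cast at p1 p2
    linarith
  · -- antiparallel
    exfalso
    have s1 := hstep j1 hj1
    have hc' : j1 + 1 = j0 := by omega
    rw [hc'] at s1
    refine tg.algm good (wd a b i j k m) (X j1) 2 κ (((m + 1 : ℕ) : ℤ) * k)
      ((lamr n E l0 j1 : ℕ) : ℤ) (by norm_num) (by norm_num) hκ.1 hκ.2 ?_ ?_
    · rw [← s1]
      exact zp_symm l0'
    · rw [← w1]
      exact zp_symm l1'

end Pool.Agent.H670.QF
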